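import Pool.Agent.Helper52.Tot.Roots

/-!
# MP_05f971_nt: PACKET D3
-/

set_option autoImplicit false

open Finset

namespace Pool.Agent.Helper52.Tot

open Pool.Agent.Helper94.Tot Pool.Agent.Helper90.Twin

/-- the weight -/
noncomputable def wD (L : Finset ℕ) (n : ℕ) (p t : ℕ) : ℝ :=
  if p ∣ 1 * t + (2 ^ n + 1) ∨ (p ∈ L ∧ p ∣ 1 * t + 2 ^ n) then 1 else 0

theorem wD_nonneg (L : Finset ℕ) (n p t : ℕ) : 0 ≤ wD L n p t := by
  unfold wD; split_ifs <;> norm_num

theorem wD_le_one (L : Finset ℕ) (n p t : ℕ) : wD L n p t ≤ 1 := by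
  unfold wD; split_ifs <;> norm_num

theorem wD_per (L : Finset ℕ) (n p t : ℕ) : wD L n p (t + p) = wD L n p t := by
  unfold wD
  simp only [dvd_per]

theorem nu_wD (L : Finset ℕ) (n : ℕ) {p : ℕ} (hp : p.Prime) :
    nu (wD L n) p = 1 + if p ∈ L then 1 else 0 := by
  have h1 : ¬ p ∣ 1 := fun h => hp.one_lt.ne' (Nat.dvd_one.1 h)
  have e := nu_union (p := p) (fun t => p ∣ 1 * t + (2 ^ n + 1))
    (fun t => p ∈ L ∧ p ∣ 1 * t + 2 ^ n) (by
      rintro x ⟨h2, -, h3⟩
      exact not_dvd_both hp (by ring : 1 * x + (2 ^ n + 1) = 1 * x + 2 ^ n + 1) ⟨h3, h2⟩)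
  have e1 : nu (wD L n) p = ∑ x ∈ range p, (if p ∣ 1 * x + (2 ^ n + 1) ∨
      (p ∈ L ∧ p ∣ 1 * x + 2 ^ n) then (1 : ℝ) else 0) := rfl
  rw [e1, e, card_root' hp h1]
  split_ifs with hL
  · have : (range p).filter (fun t => p ∈ L ∧ p ∣ 1 * t + 2 ^ n) =
        (range p).filter (fun t => p ∣ 1 * t + 2 ^ n) :=
      Finset.filter_congr fun x _ => by simp [hL]
    rw [this, card_root' hp h1]
    norm_num
  · have : (range p).filter (fun t => p ∈ L ∧ p ∣ 1 * t + 2 ^ n) = ∅ := by
      refine Finset.filter_eq_empty_iff.2 fun x _ h => hL h.1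
    rw [this]
    simp

theorem adm_wD (L : Finset ℕ) (n : ℕ) : Adm (wD L n) 2 where
  nonneg := fun p _ _ x => wD_nonneg L n p x
  le_one := fun p _ _ x => wD_le_one L n p x
  per := fun p _ _ x => wD_per L n p x
  nu_le := fun p hp _ => by
    rw [nu_wD L n hp]
    split_ifs <;> norm_num

theorem pf_D3 (hGS : StmtGS) (hSz : StmtSz) : StmtD3 := by
  obtain ⟨K, C₁, hK, hC₁, hGS⟩ := hGS
  obtain ⟨C₃, hC₃, hSz⟩ := hSz
  set c := K + 1 with hc
  have hc0 : (0 : ℝ) < c := by rw [hc]; positivity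
  have hl2 : 0 < Real.log 2 := Real.log_pos (by norm_num)
  refine ⟨c + 2 * C₁ * (C₃ * (2 * c) / Real.log 2), c, by positivity, by omega, ?_⟩
  intro n m hn hcm L hL
  have hn0 : (0 : ℝ) < n := by exact_mod_cast hn
  set E := Real.exp (-∑ q ∈ L, 1 / (q : ℝ)) with hE
  have hE0 : 0 < E := Real.exp_pos _
  have hcount : (((DB n).filter (fun p => ∀ q ∈ L, ¬ q ∣ p - 1)).card : ℝ) ≤ 2 ^ n := by
    have h1 : ((DB n).filter (fun p => ∀ q ∈ L, ¬ q ∣ p - 1)).card ≤ 2 ^ n := by
      refine (Finset.card_filter_le _ _).trans ?_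
      refine (Finset.card_filter_le _ _).trans ?_
      rw [Nat.card_Ioc, pow_succ]
      omega
    exact_mod_cast h1
  rcases lt_or_ge n c with hnc | hnc
  · -- trivial range
    have hm : m = 0 := by
      by_contra hm
      have : 1 ≤ m := Nat.one_le_iff_ne_zero.2 hm
      have : c * 1 ≤ c * m := Nat.mul_le_mul_left _ this
      omega
    have hLe : L = ∅ := by
      rw [Finset.eq_empty_iff_forall_notMem]
      intro q hq
      have := hL q hq
      rw [hm, pow_zero] at this
      omega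
    have hE1 : E = 1 := by
      rw [hE, hLe, Finset.sum_empty, neg_zero, Real.exp_zero]
    rw [hE1, mul_one]
    refine hcount.trans ?_
    have h1 : (n : ℝ) ≤ c := by exact_mod_cast hnc.le
    have h2 : (2 : ℝ) ^ n ≤ c * (2 ^ n / n) := by
      rw [mul_div_assoc', le_div_iff₀ hn0, mul_comm]
      exact mul_le_mul_of_nonneg_right h1 (by positivity)
    refine h2.trans (mul_le_mul_of_nonneg_right ?_ (by positivity))
    have : 0 ≤ 2 * C₁ * (C₃ * (2 * c) / Real.log 2) := by positivity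
    linarith
  · -- the sieve
    set k := n / c with hk
    have hcpos : 0 < c := by omega
    have hk1 : 1 ≤ k := (Nat.one_le_div_iff hcpos).2 hnc
    have hmk : m ≤ k := (Nat.le_div_iff_mul_le hcpos).2 (by rw [mul_comm]; exact hcm)
    have hkn : k ≤ n := Nat.div_le_self _ _
    have hKk : k * K ≤ n := by
      have h1 : k * c ≤ n := Nat.div_mul_le_self n c
      have h2 : k * K ≤ k * c := Nat.mul_le_mul_left _ (by omega)
      omega
    set z := 2 ^ k with hz
    have hz2 : 2 ≤ z := by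
      calc 2 = 2 ^ 1 := rfl
        _ ≤ 2 ^ k := Nat.pow_le_pow_right (by norm_num) hk1
    have hzK : z ^ K ≤ 2 ^ n := by
      rw [hz, ← pow_mul]
      exact Nat.pow_le_pow_right (by norm_num) hKk
    have hzn : z ≤ 2 ^ n := Nat.pow_le_pow_right (by norm_num) hkn
    have hLsub : L ⊆ Ps z := by
      intro q hq
      obtain ⟨h1, h2, h3⟩ := hL q hq
      exact mem_Ps.2 ⟨h2, h3.trans (Nat.pow_le_pow_right (by norm_num) hmk), h1⟩
    have hgs := hGS z (2 ^ n) (Nat.one_le_two_pow) hzK (wD L n) (adm_wD L n)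
    -- the count is at most the sifted sum
    have hcnt : (((DB n).filter (fun p => ∀ q ∈ L, ¬ q ∣ p - 1)).card : ℝ) ≤
        ∑ t ∈ range (2 ^ n), ∏ p ∈ Ps z, (1 - wD L n p t) := by
      have hprodnn : ∀ t, 0 ≤ ∏ p ∈ Ps z, (1 - wD L n p t) := fun t =>
        Finset.prod_nonneg fun p _ => by linarith [wD_le_one L n p t]
      set Aset := (range (2 ^ n)).filter (fun t => ∏ p ∈ Ps z, (1 - wD L n p t) = 1) with hA
      have h1 : ((DB n).filter (fun p => ∀ q ∈ L, ¬ q ∣ p - 1)).card ≤ Aset.card := by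
        refine Finset.card_le_card_of_injOn (fun p => p - (2 ^ n + 1)) ?_ ?_
        · intro p hp
          rw [Finset.mem_coe, Finset.mem_filter, DB, Finset.mem_filter, mem_Ioc] at hp
          obtain ⟨⟨⟨h2, h3⟩, h4⟩, h5⟩ := hp
          rw [Finset.mem_coe, hA, Finset.mem_filter, mem_range]
          rw [pow_succ] at h3
          refine ⟨by simp only; omega, ?_⟩
          refine Finset.prod_eq_one fun q hq => ?_
          have hq' := mem_Ps.1 hq
          have : wD L n q (p - (2 ^ n + 1)) = 0 := by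
            unfold wD
            rw [if_neg]
            rintro (h6 | ⟨h6, h7⟩)
            · have e : 1 * (p - (2 ^ n + 1)) + (2 ^ n + 1) = p := by omega
              rw [e] at h6
              rcases (Nat.dvd_prime h4).1 h6 with h8 | h8
              · omega
              · omega
            · have e : 1 * (p - (2 ^ n + 1)) + 2 ^ n = p - 1 := by omega
              rw [e] at h7
              exact h5 q h6 h7
          simp only
          rw [this, sub_zero]
        · intro p hp q hq hpq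
          rw [Finset.mem_coe, Finset.mem_filter, DB, Finset.mem_filter, mem_Ioc] at hp hq
          obtain ⟨⟨⟨h2, -⟩, -⟩, -⟩ := hp
          obtain ⟨⟨⟨h3, -⟩, -⟩, -⟩ := hq
          simp only at hpq
          omega
      have h2 : (Aset.card : ℝ) ≤ ∑ t ∈ range (2 ^ n), ∏ p ∈ Ps z, (1 - wD L n p t) := by
        calc (Aset.card : ℝ) = ∑ t ∈ Aset, ∏ p ∈ Ps z, (1 - wD L n p t) := by
              rw [Finset.sum_congr rfl fun t ht => (Finset.mem_filter.1 ht).2, Finset.sum_const,
                nsmul_eq_mul, mul_one]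
          _ ≤ _ := Finset.sum_le_sum_of_subset_of_nonneg (Finset.filter_subset _ _)
              fun t _ _ => hprodnn t
      exact (by exact_mod_cast h1 : (((DB n).filter (fun p => ∀ q ∈ L, ¬ q ∣ p - 1)).card : ℝ) ≤
        (Aset.card : ℝ)).trans h2
    -- the main term
    have hSL : ∑ q ∈ L, 1 / (q : ℝ) ≤ Sz z :=
      Finset.sum_le_sum_of_subset_of_nonneg hLsub fun _ _ _ => by positivity
    have hSL0 : 0 ≤ ∑ q ∈ L, 1 / (q : ℝ) := Finset.sum_nonneg fun _ _ => by positivity
    have hprod : ∏ p ∈ Ps z, (1 - nu (wD L n) p / p) ≤ Real.exp (-Sz z) * E := by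
      have h1 : ∏ p ∈ Ps z, (1 - nu (wD L n) p / p) ≤
          ∏ p ∈ Ps z, Real.exp (-(nu (wD L n) p / p)) := by
        refine Finset.prod_le_prod (fun p hp => ?_) fun p _ => Real.one_sub_le_exp_neg _
        have := (adm_wD L n).frac_le (mem_Ps.1 hp).2.2 (mem_Ps.1 hp).1
        linarith
      refine h1.trans (le_of_eq ?_)
      rw [← Real.exp_sum, hE, ← Real.exp_add]
      congr 1
      have h2 : ∑ p ∈ Ps z, (if p ∈ L then 1 / (p : ℝ) else 0) = ∑ q ∈ L, 1 / (q : ℝ) := by
        rw [← Finset.sum_filter, Finset.filter_mem_eq_inter, Finset.inter_eq_right.2 hLsub]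
      rw [Sz, ← h2, ← neg_add, ← Finset.sum_add_distrib, ← Finset.sum_neg_distrib]
      refine Finset.sum_congr rfl fun p hp => ?_
      rw [nu_wD L n (mem_Ps.1 hp).2.2]
      split_ifs
      · ring
      · ring
    have hexp3 : Real.exp (-(3 * Sz z)) ≤ Real.exp (-Sz z) * E := by
      rw [hE, ← Real.exp_add]
      refine Real.exp_le_exp.2 ?_
      have := Sz_nonneg z
      linarith
    have hSz' : Real.exp (-Sz z) ≤ C₃ * (2 * c) / Real.log 2 / n := by
      refine (hSz z hz2).trans ?_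
      have hlz : Real.log (z : ℝ) = k * Real.log 2 := by
        rw [hz]
        push_cast
        rw [Real.log_pow]
      rw [hlz]
      have hk0 : (0 : ℝ) < k := by exact_mod_cast hk1
      have hnk : (n : ℝ) ≤ 2 * c * k := by
        have h1 : n < c * (k + 1) := by
          rw [hk]
          exact Nat.lt_mul_div_succ n hcpos
        have h2 : c * (k + 1) ≤ 2 * c * k := by nlinarith
        exact_mod_cast (h1.le.trans h2)
      rw [div_div, div_le_div_iff₀ (by positivity) (by positivity)]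
      have : C₃ * (Real.log 2 * n) ≤ C₃ * (Real.log 2 * (2 * c * k)) := by gcongr
      calc C₃ * (Real.log 2 * n) ≤ C₃ * (Real.log 2 * (2 * c * k)) := this
        _ = C₃ * (2 * c) * (k * Real.log 2) := by ring
    push_cast at hgs
    calc (((DB n).filter (fun p => ∀ q ∈ L, ¬ q ∣ p - 1)).card : ℝ)
        ≤ C₁ * 2 ^ n * (∏ p ∈ Ps z, (1 - nu (wD L n) p / p) + Real.exp (-(3 * Sz z))) :=
          hcnt.trans hgs
      _ ≤ C₁ * 2 ^ n * (Real.exp (-Sz z) * E + Real.exp (-Sz z) * E) := by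
          refine mul_le_mul_of_nonneg_left (add_le_add hprod hexp3) (by positivity)
      _ = 2 * C₁ * 2 ^ n * E * Real.exp (-Sz z) := by ring
      _ ≤ 2 * C₁ * 2 ^ n * E * (C₃ * (2 * c) / Real.log 2 / n) :=
          mul_le_mul_of_nonneg_left hSz' (by positivity)
      _ = 2 * C₁ * (C₃ * (2 * c) / Real.log 2) * (2 ^ n / n) * E := by ring
      _ ≤ (c + 2 * C₁ * (C₃ * (2 * c) / Real.log 2)) * (2 ^ n / n) * E := by
          have : 2 * C₁ * (C₃ * (2 * c) / Real.log 2) ≤
              c + 2 * C₁ * (C₃ * (2 * c) / Real.log 2) := by linarith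
          gcongr

end Pool.Agent.Helper52.Tot
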