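import Pool.Agent.Helper94.Tot.Goals

/-!
# MP_05f971_nt: PACKET Err
-/

set_option autoImplicit false

open Finset

namespace Pool.Agent.Helper52.Tot

open Pool.Agent.Helper94.Tot

/-- sum of the reciprocals of distinct positive integers -/
theorem sum_inv_le {D : Finset ℕ} {Y : ℕ} (hD : D ⊆ Icc 1 Y) :
    ∑ e ∈ D, 1 / (e : ℝ) ≤ 1 + Real.log Y := by
  have h1 : ∑ e ∈ D, 1 / (e : ℝ) ≤ ∑ e ∈ Icc 1 Y, 1 / (e : ℝ) :=
    Finset.sum_le_sum_of_subset_of_nonneg hD fun _ _ _ => by positivity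
  have h2 := harmonic_le_one_add_log Y
  have h3 : ((harmonic Y : ℚ) : ℝ) = ∑ e ∈ Icc 1 Y, 1 / (e : ℝ) := by
    rw [harmonic_eq_sum_Icc]
    push_cast
    simp
  rw [h3] at h2
  exact h1.trans h2

theorem sqrt_bound {x y z : ℝ} (hx : 0 ≤ x) (hy : 0 ≤ y) (hz : 0 ≤ z) :
    √(x + y + z) ≤ √x + √y + √z := by
  rw [Real.sqrt_le_left (by positivity)]
  nlinarith [Real.sq_sqrt hx, Real.sq_sqrt hy, Real.sq_sqrt hz, Real.sqrt_nonneg x,
    Real.sqrt_nonneg y, Real.sqrt_nonneg z, mul_nonneg (Real.sqrt_nonneg x) (Real.sqrt_nonneg y),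
    mul_nonneg (Real.sqrt_nonneg x) (Real.sqrt_nonneg z),
    mul_nonneg (Real.sqrt_nonneg y) (Real.sqrt_nonneg z)]

theorem term_bound {K M Y2 u e : ℕ} {h : ℝ} (hK : 1 ≤ K) (hM : 1 ≤ M) (hu : 1 ≤ u) (he : 1 ≤ e)
    (hh : 1 ≤ h) :
    √(10 * K * M ^ 2 * h ^ 3 * (1 / (e ^ 2 * u) + 1 / (e * M)) + 10 * Y2 ^ 2 * M ^ 2 / e) ≤
      4 * √K * M * h ^ 2 * (1 / e * (1 / √u)) + 4 * √K * M * h ^ 2 * (1 / √M) + 4 * Y2 * M := by
  have hK0 : (0 : ℝ) < K := by exact_mod_cast hK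
  have hM0 : (0 : ℝ) < M := by exact_mod_cast hM
  have hu0 : (0 : ℝ) < u := by exact_mod_cast hu
  have he0 : (0 : ℝ) < e := by exact_mod_cast he
  have he1 : (1 : ℝ) ≤ e := by exact_mod_cast he
  have hh0 : 0 < h := by linarith
  have hY : (0 : ℝ) ≤ Y2 := Nat.cast_nonneg _
  have e1 : 10 * K * M ^ 2 * h ^ 3 * (1 / (e ^ 2 * u) + 1 / (e * M)) + 10 * Y2 ^ 2 * M ^ 2 / e =
      10 * K * M ^ 2 * h ^ 3 * (1 / (e ^ 2 * u)) + 10 * K * M ^ 2 * h ^ 3 * (1 / (e * M)) +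
        10 * Y2 ^ 2 * M ^ 2 / (e : ℝ) := by ring
  rw [e1]
  refine (sqrt_bound (by positivity) (by positivity) (by positivity)).trans ?_
  have hsK := Real.sq_sqrt hK0.le
  have hsM := Real.sq_sqrt hM0.le
  have hsu := Real.sq_sqrt hu0.le
  have sK : 0 < √(K : ℝ) := Real.sqrt_pos.2 hK0
  have sM : 0 < √(M : ℝ) := Real.sqrt_pos.2 hM0
  have su : 0 < √(u : ℝ) := Real.sqrt_pos.2 hu0
  have hh34 : h ^ 3 ≤ h ^ 4 := pow_le_pow_right₀ hh (by norm_num)
  refine add_le_add (add_le_add ?_ ?_) ?_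
  · rw [Real.sqrt_le_left (by positivity)]
    have e2 : (4 * √K * M * h ^ 2 * (1 / e * (1 / √u))) ^ 2 =
        16 * (√K) ^ 2 * M ^ 2 * h ^ 4 * (1 / (e ^ 2 * (√u) ^ 2)) := by
      field_simp
      ring
    rw [e2, hsK, hsu]
    have : 10 * K * M ^ 2 * h ^ 3 * (1 / ((e : ℝ) ^ 2 * u)) =
        (10 * h ^ 3) * (K * M ^ 2 * (1 / ((e : ℝ) ^ 2 * u))) := by ring
    rw [this]
    have : 16 * K * M ^ 2 * h ^ 4 * (1 / ((e : ℝ) ^ 2 * u)) =
        (16 * h ^ 4) * (K * M ^ 2 * (1 / ((e : ℝ) ^ 2 * u))) := by ring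
    rw [this]
    refine mul_le_mul_of_nonneg_right ?_ (by positivity)
    nlinarith [pow_pos hh0 4]
  · rw [Real.sqrt_le_left (by positivity)]
    have e2 : (4 * √K * M * h ^ 2 * (1 / √M)) ^ 2 =
        16 * (√K) ^ 2 * M ^ 2 * h ^ 4 * (1 / (√M) ^ 2) := by
      field_simp
      ring
    rw [e2, hsK, hsM]
    have : 10 * K * M ^ 2 * h ^ 3 * (1 / ((e : ℝ) * M)) =
        (10 * h ^ 3 * (1 / e)) * (K * M ^ 2 * (1 / M)) := by
      field_simp
    rw [this]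
    have : 16 * K * M ^ 2 * h ^ 4 * (1 / (M : ℝ)) =
        (16 * h ^ 4) * (K * M ^ 2 * (1 / M)) := by ring
    rw [this]
    refine mul_le_mul_of_nonneg_right ?_ (by positivity)
    have h1e : 1 / (e : ℝ) ≤ 1 := by
      rw [div_le_one he0]; exact he1
    have : 10 * h ^ 3 * (1 / (e : ℝ)) ≤ 10 * h ^ 3 * 1 :=
      mul_le_mul_of_nonneg_left h1e (by positivity)
    nlinarith [pow_pos hh0 4]
  · rw [Real.sqrt_le_left (by positivity)]
    have h1 : 10 * (Y2 : ℝ) ^ 2 * M ^ 2 / e ≤ 10 * (Y2 : ℝ) ^ 2 * M ^ 2 :=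
      div_le_self (by positivity) he1
    nlinarith [mul_nonneg (sq_nonneg (Y2 : ℝ)) (sq_nonneg (M : ℝ))]

theorem SS_eq (D : Finset ℕ) (n : ℕ) :
    SS D n = ∑ e ∈ D, if e ∣ n then (ArithmeticFunction.moebius e : ℝ) else 0 := by
  rw [SS, Finset.sum_filter]

theorem pf_Err (hVar : StmtVar) : StmtErr := by
  intro D1 D2 Y1 Y2 u hY1 hY2 hu hD1 hD2 b K M hb hK hM w hw
  have hM1 : 1 ≤ M := hY1.trans hM
  have hK0 : (0 : ℝ) < K := by exact_mod_cast hK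
  have hM0 : (0 : ℝ) < M := by exact_mod_cast hM1
  set h : ℝ := 1 + Real.log Y2 with hh
  have hh1 : 1 ≤ h := by
    have : 0 ≤ Real.log (Y2 : ℝ) := Real.log_natCast_nonneg _
    linarith
  have hY10 : (1 : ℝ) ≤ Y1 := by exact_mod_cast hY1
  have hD1sub : D1 ⊆ Icc 1 Y1 := by
    intro e he
    rw [mem_Icc]
    exact ⟨Nat.one_le_iff_ne_zero.2 (hD1 e he).1.ne_zero, (hD1 e he).2.1⟩
  have hcard : (D1.card : ℝ) ≤ Y1 := by
    have := Finset.card_le_card hD1sub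
    rw [Nat.card_Icc, Nat.add_sub_cancel] at this
    exact_mod_cast this
  -- the inner sums
  set G : ℕ → ℕ → ℝ := fun e k => ∑ m ∈ (Ico M (2 * M)).filter (fun m => e ∣ b * m * k + 1),
      (SS D2 (b * m * k + 1) - sg D2 (b * m)) with hG
  have hLHS : ∑ m ∈ Ico M (2 * M), ∑ k ∈ Icc 1 K,
      w k * SS D1 (b * m * k + 1) * (SS D2 (b * m * k + 1) - sg D2 (b * m)) =
      ∑ e ∈ D1, (ArithmeticFunction.moebius e : ℝ) * ∑ k ∈ Icc 1 K, w k * G e k := by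
    rw [Finset.sum_comm]
    simp only [hG, Finset.mul_sum, Finset.sum_filter]
    rw [Finset.sum_comm (s := D1)]
    refine Finset.sum_congr rfl fun k _ => ?_
    rw [Finset.sum_comm (s := D1)]
    refine Finset.sum_congr rfl fun m _ => ?_
    rw [SS_eq D1, Finset.mul_sum, Finset.sum_mul]
    refine Finset.sum_congr rfl fun e _ => ?_
    split_ifs
    · ring
    · ring
  have hterm : ∀ e ∈ D1, (ArithmeticFunction.moebius e : ℝ) * ∑ k ∈ Icc 1 K, w k * G e k ≤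
      √K * (4 * √K * M * h ^ 2 * (1 / e * (1 / √u)) + 4 * √K * M * h ^ 2 * (1 / √M) +
        4 * Y2 * M) := by
    intro e he
    have he1 := (mem_Icc.1 (hD1sub he)).1
    have h1 : (ArithmeticFunction.moebius e : ℝ) * ∑ k ∈ Icc 1 K, w k * G e k ≤
        ∑ k ∈ Icc 1 K, |G e k| := by
      refine (le_abs_self _).trans ?_
      rw [abs_mul]
      have hmu : |(ArithmeticFunction.moebius e : ℝ)| ≤ 1 := by
        have := ArithmeticFunction.abs_moebius_le_one (n := e)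
        exact_mod_cast this
      calc |(ArithmeticFunction.moebius e : ℝ)| * |∑ k ∈ Icc 1 K, w k * G e k|
          ≤ 1 * |∑ k ∈ Icc 1 K, w k * G e k| :=
            mul_le_mul_of_nonneg_right hmu (abs_nonneg _)
        _ ≤ ∑ k ∈ Icc 1 K, |w k * G e k| := by
            rw [one_mul]; exact Finset.abs_sum_le_sum_abs _ _
        _ ≤ ∑ k ∈ Icc 1 K, |G e k| := by
            refine Finset.sum_le_sum fun k _ => ?_
            rw [abs_mul, abs_of_nonneg (hw k).1]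
            exact mul_le_of_le_one_left (abs_nonneg _) (hw k).2
    have h2 : ∑ k ∈ Icc 1 K, |G e k| ≤ √K * √(∑ k ∈ Icc 1 K, (G e k) ^ 2) := by
      rw [← Real.sqrt_mul hK0.le]
      refine Real.le_sqrt_of_sq_le ?_
      have := sq_sum_le_card_mul_sum_sq (s := Icc 1 K) (f := fun k => |G e k|)
      simp only [sq_abs, Nat.card_Icc, Nat.add_sub_cancel] at this
      exact this
    have h3 := hVar D2 Y2 u hY2 hu hD2 e b he1 (hD1 e he).2.2 hb K M hK ((hD1 e he).2.1.trans hM)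
    refine h1.trans (h2.trans (mul_le_mul_of_nonneg_left ?_ (Real.sqrt_nonneg _)))
    refine (Real.sqrt_le_sqrt h3).trans ?_
    exact term_bound hK hM1 hu he1 hh1
  rw [hLHS]
  refine (Finset.sum_le_sum hterm).trans ?_
  rw [← Finset.mul_sum, Finset.sum_add_distrib, Finset.sum_add_distrib, ← Finset.mul_sum,
    ← Finset.sum_mul, Finset.sum_const, Finset.sum_const, nsmul_eq_mul, nsmul_eq_mul]
  have hs := sum_inv_le hD1sub
  have hsK := Real.mul_self_sqrt hK0.le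
  have a1 : 4 * √K * M * h ^ 2 * ((∑ e ∈ D1, 1 / (e : ℝ)) * (1 / √u)) ≤
      4 * √K * M * h ^ 2 * ((1 + Real.log Y1) * (1 / √u)) := by
    refine mul_le_mul_of_nonneg_left (mul_le_mul_of_nonneg_right hs (by positivity))
      (by positivity)
  have a2 : (D1.card : ℝ) * (4 * √K * M * h ^ 2 * (1 / √M)) ≤
      Y1 * (4 * √K * M * h ^ 2 * (1 / √M)) :=
    mul_le_mul_of_nonneg_right hcard (by positivity)
  have a3 : (D1.card : ℝ) * (4 * Y2 * M) ≤ Y1 * (4 * Y2 * M) :=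
    mul_le_mul_of_nonneg_right hcard (by positivity)
  refine (mul_le_mul_of_nonneg_left (add_le_add (add_le_add a1 a2) a3)
    (Real.sqrt_nonneg _)).trans (le_of_eq ?_)
  have : √(K : ℝ) * (4 * √K * M * h ^ 2 * ((1 + Real.log Y1) * (1 / √u)) +
      Y1 * (4 * √K * M * h ^ 2 * (1 / √M)) + Y1 * (4 * Y2 * M)) =
      4 * (√K * √K) * M * h ^ 2 * ((1 + Real.log Y1) / √u + Y1 / √M) + 4 * √K * Y2 * M * Y1 := by
    ring
  rw [this, hsK]

end Pool.Agent.Helper52.Tot
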