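import Pool.Agent.Helper52.Tot.Roots

/-!
# MP_05f971_nt: PACKET TW
-/

set_option autoImplicit false

open Finset

namespace Pool.Agent.Helper52.Tot

open Pool.Agent.Helper94.Tot Pool.Agent.Helper90.Twin

/-- the weight -/
noncomputable def wT (a : ℕ) (p t : ℕ) : ℝ :=
  if p ∣ 1 * t + 1 ∨ p ∣ a * t + (a + 1) then 1 else 0

theorem wT_nonneg (a p t : ℕ) : 0 ≤ wT a p t := by
  unfold wT; split_ifs <;> norm_num

theorem wT_le_one (a p t : ℕ) : wT a p t ≤ 1 := by
  unfold wT; split_ifs <;> norm_num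

theorem wT_per (a p t : ℕ) : wT a p (t + p) = wT a p t := by
  unfold wT
  simp only [dvd_per]

theorem nu_wT (a : ℕ) {p : ℕ} (hp : p.Prime) :
    nu (wT a) p = if p ∣ a then 1 else 2 := by
  have h1 : ¬ p ∣ 1 := fun h => hp.one_lt.ne' (Nat.dvd_one.1 h)
  have e := nu_union (p := p) (fun t => p ∣ 1 * t + 1)
    (fun t => p ∣ a * t + (a + 1)) (by
      rintro x ⟨h2, h3⟩
      have h4 : p ∣ a * (1 * x + 1) := h2.mul_left a
      exact not_dvd_both hp (by ring : a * x + (a + 1) = a * (1 * x + 1) + 1) ⟨h4, h3⟩)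
  have e1 : nu (wT a) p = ∑ x ∈ range p, (if p ∣ 1 * x + 1 ∨
      p ∣ a * x + (a + 1) then (1 : ℝ) else 0) := rfl
  rw [e1, e, card_root' hp h1]
  split_ifs with hL
  · have : (range p).filter (fun t => p ∣ a * t + (a + 1)) = ∅ := by
      refine Finset.filter_eq_empty_iff.2 fun x _ h => ?_
      have h4 : p ∣ a * (1 * x + 1) := hL.mul_right _
      exact not_dvd_both hp (by ring : a * x + (a + 1) = a * (1 * x + 1) + 1) ⟨h4, h⟩
    rw [this]
    simp
  · rw [card_root' hp hL]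
    norm_num

theorem adm_wT (a : ℕ) : Adm (wT a) 2 where
  nonneg := fun p _ _ x => wT_nonneg a p x
  le_one := fun p _ _ x => wT_le_one a p x
  per := fun p _ _ x => wT_per a p x
  nu_le := fun p hp _ => by
    rw [nu_wT a hp]
    split_ifs <;> norm_num

theorem one_le_prod_real {s : Finset ℕ} {f : ℕ → ℝ} (h : ∀ x ∈ s, 1 ≤ f x) : 1 ≤ ∏ x ∈ s, f x :=
  Finset.prod_induction f (fun x => 1 ≤ x)
    (fun _ _ ha hb => one_le_mul_of_one_le_of_one_le ha hb) le_rfl h

theorem factor_ge {p : ℕ} (hp : p.Prime) : 1 ≤ (1 - 1 / (p : ℝ))⁻¹ := by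
  have h2 : (2 : ℝ) ≤ p := by exact_mod_cast hp.two_le
  have h3 : 1 / (p : ℝ) ≤ 1 / 2 := one_div_le_one_div_of_le (by norm_num) h2
  have h4 : 0 < 1 / (p : ℝ) := by positivity
  rw [one_le_inv₀ (by linarith)]
  linarith

theorem ratio_eq {a : ℕ} (ha : 1 ≤ a) :
    (a : ℝ) / (Nat.totient a : ℝ) = ∏ p ∈ a.primeFactors, (1 - 1 / (p : ℝ))⁻¹ := by
  have h1 := Nat.totient_eq_mul_prod_factors a
  have h2 : (Nat.totient a : ℝ) = a * ∏ p ∈ a.primeFactors, (1 - 1 / (p : ℝ)) := by
    have := congrArg (fun x : ℚ => (x : ℝ)) h1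
    push_cast at this
    simpa [one_div] using this
  have ha0 : (0 : ℝ) < a := by exact_mod_cast ha
  have ht : (0 : ℝ) < Nat.totient a := by exact_mod_cast Nat.totient_pos.2 ha
  rw [Finset.prod_inv_distrib, div_eq_iff ht.ne', h2]
  have hne : ∏ p ∈ a.primeFactors, (1 - 1 / (p : ℝ)) ≠ 0 := by
    intro h0
    rw [h2, h0, mul_zero] at ht
    exact lt_irrefl _ ht
  field_simp

theorem ratio_ge {a : ℕ} (ha : 1 ≤ a) : 1 ≤ (a : ℝ) / (Nat.totient a : ℝ) := by
  rw [ratio_eq ha]
  exact one_le_prod_real fun p hp => factor_ge (Nat.prime_of_mem_primeFactors hp)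

theorem prod_wT_le {a : ℕ} (ha : 1 ≤ a) (z : ℕ) :
    ∏ p ∈ Ps z, (1 - nu (wT a) p / p) ≤
      (∏ p ∈ Ps z, (1 - 1 / (p : ℝ))) ^ 2 * ((a : ℝ) / (Nat.totient a : ℝ)) := by
  have h1 : ∏ p ∈ Ps z, (1 - nu (wT a) p / p) ≤
      ∏ p ∈ Ps z, ((1 - 1 / (p : ℝ)) ^ 2 * if p ∣ a then (1 - 1 / (p : ℝ))⁻¹ else 1) := by
    refine Finset.prod_le_prod (fun p hp => ?_) fun p hp => ?_
    · have := (adm_wT a).frac_le (mem_Ps.1 hp).2.2 (mem_Ps.1 hp).1
      linarith
    · have hp' := (mem_Ps.1 hp).2.2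
      have h5 : (5 : ℝ) ≤ p := by exact_mod_cast (mem_Ps.1 hp).1
      have h6 : 1 / (p : ℝ) < 1 := by
        rw [div_lt_one (by linarith)]
        linarith
      rw [nu_wT a hp']
      split_ifs
      · have : (1 - 1 / (p : ℝ)) ≠ 0 := by linarith
        rw [sq, mul_assoc, mul_inv_cancel₀ this, mul_one]
      · have : (1 - 1 / (p : ℝ)) ^ 2 * 1 = 1 - 2 / (p : ℝ) + (1 / (p : ℝ)) ^ 2 := by ring
        rw [this]
        have := sq_nonneg (1 / (p : ℝ))
        linarith
  refine h1.trans ?_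
  rw [Finset.prod_mul_distrib, Finset.prod_pow]
  refine mul_le_mul_of_nonneg_left ?_ (sq_nonneg _)
  rw [← Finset.prod_filter, ratio_eq ha]
  have hsub : (Ps z).filter (fun p => p ∣ a) ⊆ a.primeFactors := by
    intro p hp
    rw [Finset.mem_filter] at hp
    exact Nat.mem_primeFactors.2 ⟨(mem_Ps.1 hp.1).2.2, hp.2, by omega⟩
  rw [← Finset.prod_sdiff hsub]
  refine le_mul_of_one_le_left ?_ ?_
  · refine Finset.prod_nonneg fun p hp => ?_
    have := factor_ge (mem_Ps.1 (Finset.mem_filter.1 hp).1).2.2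
    linarith
  · exact one_le_prod_real fun p hp =>
      factor_ge (Nat.prime_of_mem_primeFactors (Finset.mem_sdiff.1 hp).1)

theorem count_le {a : ℕ} (ha : 1 ≤ a) (N z : ℕ) :
    (((Icc 1 N).filter (fun t => t.Prime ∧ (a * t + 1).Prime)).card : ℝ) ≤
      z + ∑ t ∈ range N, ∏ p ∈ Ps z, (1 - wT a p t) := by
  have hprodnn : ∀ t, 0 ≤ ∏ p ∈ Ps z, (1 - wT a p t) := fun t =>
    Finset.prod_nonneg fun p _ => by linarith [wT_le_one a p t]
  set Aset := (range N).filter (fun t => ∏ p ∈ Ps z, (1 - wT a p t) = 1) with hA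
  have h0 : (Icc 1 N).filter (fun t => t.Prime ∧ (a * t + 1).Prime) ⊆
      Icc 1 z ∪ (Aset.image (fun t => t + 1)) := by
    intro t ht
    rw [Finset.mem_filter, mem_Icc] at ht
    obtain ⟨⟨h1, h2⟩, h3, h4⟩ := ht
    rw [Finset.mem_union]
    rcases le_or_gt t z with h5 | h5
    · exact Or.inl (mem_Icc.2 ⟨h1, h5⟩)
    · right
      rw [Finset.mem_image]
      refine ⟨t - 1, ?_, by omega⟩
      rw [hA, Finset.mem_filter, mem_range]
      refine ⟨by omega, ?_⟩
      refine Finset.prod_eq_one fun q hq => ?_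
      have hq' := mem_Ps.1 hq
      have : wT a q (t - 1) = 0 := by
        unfold wT
        rw [if_neg]
        rintro (h6 | h6)
        · have e : 1 * (t - 1) + 1 = t := by omega
          rw [e] at h6
          rcases (Nat.dvd_prime h3).1 h6 with h8 | h8
          · omega
          · omega
        · have e : a * (t - 1) + (a + 1) = a * t + 1 := by
            obtain ⟨s, rfl⟩ : ∃ s, t = s + 1 := ⟨t - 1, by omega⟩
            rw [Nat.add_sub_cancel]
            ring
          rw [e] at h6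
          rcases (Nat.dvd_prime h4).1 h6 with h8 | h8
          · omega
          · have : t ≤ a * t := Nat.le_mul_of_pos_left t ha
            omega
      rw [this, sub_zero]
  have h1 : ((Icc 1 N).filter (fun t => t.Prime ∧ (a * t + 1).Prime)).card ≤ z + Aset.card := by
    refine (Finset.card_le_card h0).trans ((Finset.card_union_le _ _).trans ?_)
    refine add_le_add ?_ Finset.card_image_le
    rw [Nat.card_Icc]
    omega
  have h2 : (Aset.card : ℝ) ≤ ∑ t ∈ range N, ∏ p ∈ Ps z, (1 - wT a p t) := by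
    calc (Aset.card : ℝ) = ∑ t ∈ Aset, ∏ p ∈ Ps z, (1 - wT a p t) := by
          rw [Finset.sum_congr rfl fun t ht => (Finset.mem_filter.1 ht).2, Finset.sum_const,
            nsmul_eq_mul, mul_one]
      _ ≤ _ := Finset.sum_le_sum_of_subset_of_nonneg (Finset.filter_subset _ _)
          fun t _ _ => hprodnn t
  have h3 : (((Icc 1 N).filter (fun t => t.Prime ∧ (a * t + 1).Prime)).card : ℝ) ≤
      (z : ℝ) + Aset.card := by exact_mod_cast h1
  linarith

theorem pf_TW (hGS : StmtGS) (hMP : StmtMP) (hSz : StmtSz) : StmtTW := by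
  obtain ⟨K, C₁, hK, hC₁, hGS⟩ := hGS
  obtain ⟨C₂, hC₂, hMP⟩ := hMP
  obtain ⟨C₃, hC₃, hSz⟩ := hSz
  set k : ℝ := K + 1 with hk
  have hk0 : 0 < k := by positivity
  have hlog4 : 0 < Real.log 4 := Real.log_pos (by norm_num)
  set L0 : ℝ := Real.log ((5 ^ (K + 1) : ℕ) : ℝ) with hL0
  set A : ℝ := (C₂ * Real.log 4) ^ 2 + C₃ ^ 3 with hA
  have hA0 : 0 < A := by positivity
  set C : ℝ := L0 ^ 2 + 16 + C₁ * A * (2 * k) ^ 2 with hC
  have hC0 : 0 < C := by positivity
  refine ⟨C, hC0, ?_⟩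
  intro a N ha hN
  have hR := ratio_ge ha
  set R : ℝ := (a : ℝ) / (Nat.totient a : ℝ) with hRdef
  have hN2 : (2 : ℝ) ≤ N := by exact_mod_cast hN
  have hN0 : (0 : ℝ) < N := by linarith
  have hlogN : 0 < Real.log N := Real.log_pos (by linarith)
  have hlogN2 : 0 < (Real.log N) ^ 2 := by positivity
  rcases lt_or_ge N (5 ^ (K + 1)) with hsmall | hlarge
  · have h1 : (((Icc 1 N).filter (fun t => t.Prime ∧ (a * t + 1).Prime)).card : ℝ) ≤ N := by
      have : ((Icc 1 N).filter (fun t => t.Prime ∧ (a * t + 1).Prime)).card ≤ N := by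
        refine (Finset.card_filter_le _ _).trans ?_
        rw [Nat.card_Icc]
        omega
      exact_mod_cast this
    have h2 : Real.log N ≤ L0 := Real.log_le_log hN0 (by exact_mod_cast hsmall.le)
    have h3 : (Real.log N) ^ 2 ≤ L0 ^ 2 := pow_le_pow_left₀ hlogN.le h2 2
    have h4 : (Real.log N) ^ 2 ≤ C := by
      have : 0 ≤ C₁ * A * (2 * k) ^ 2 := by positivity
      rw [hC]
      linarith
    have h5 : (N : ℝ) ≤ C * (N / (Real.log N) ^ 2) := by
      rw [mul_div_assoc', le_div_iff₀ hlogN2, mul_comm (N : ℝ)]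
      exact mul_le_mul_of_nonneg_right h4 hN0.le
    have h6 : C * (N / (Real.log N) ^ 2) ≤ C * (N / (Real.log N) ^ 2) * R :=
      le_mul_of_one_le_right (by positivity) hR
    linarith
  · -- the choice of `z`
    set z := Nat.findGreatest (fun z => z ^ (K + 1) ≤ N) N with hz
    have h5N : 5 ≤ N := by
      have : 5 ^ 1 ≤ 5 ^ (K + 1) := Nat.pow_le_pow_right (by norm_num) (by omega)
      omega
    have hz5 : 5 ≤ z := Nat.le_findGreatest h5N hlarge
    have hzN : z ^ (K + 1) ≤ N := Nat.findGreatest_spec (P := fun z => z ^ (K + 1) ≤ N) h5N hlarge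
    have hz1N : N < (z + 1) ^ (K + 1) := by
      rcases le_or_gt (z + 1) N with h1 | h1
      · have := Nat.findGreatest_is_greatest (P := fun z => z ^ (K + 1) ≤ N) (n := N) (k := z + 1)
          (by omega) h1
        omega
      · have : z + 1 ≤ (z + 1) ^ (K + 1) := Nat.le_self_pow (by omega) _
        omega
    have hzK : z ^ K ≤ N := (Nat.pow_le_pow_right (by omega) (by omega)).trans hzN
    have hz2 : z ^ 2 ≤ N := (Nat.pow_le_pow_right (by omega) (by omega)).trans hzN
    have hz5' : (5 : ℝ) ≤ z := by exact_mod_cast hz5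
    have hz0 : (0 : ℝ) < z := by linarith
    have hlz1 : 1 ≤ Real.log z := by
      rw [Real.le_log_iff_exp_le hz0]
      have := Real.exp_one_lt_d9
      linarith
    have hlz0 : 0 < Real.log z := by linarith
    have hlogNz : Real.log N ≤ 2 * k * Real.log z := by
      have h1 : Real.log N ≤ Real.log (((z : ℝ) + 1) ^ (K + 1)) :=
        Real.log_le_log hN0 (by exact_mod_cast hz1N.le)
      rw [Real.log_pow] at h1
      have h2 : Real.log ((z : ℝ) + 1) ≤ 2 * Real.log z := by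
        have : Real.log ((z : ℝ) + 1) ≤ Real.log ((z : ℝ) ^ 2) :=
          Real.log_le_log (by linarith) (by nlinarith)
        rw [Real.log_pow] at this
        exact_mod_cast this
      have h3 : ((K + 1 : ℕ) : ℝ) = k := by rw [hk]; push_cast; ring
      rw [h3] at h1
      nlinarith
    have hinv : 1 / (Real.log z) ^ 2 ≤ (2 * k) ^ 2 / (Real.log N) ^ 2 := by
      rw [div_le_div_iff₀ (by positivity) hlogN2, one_mul, ← mul_pow]
      exact pow_le_pow_left₀ hlogN.le hlogNz 2
    -- the sieve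
    have hgs := hGS z N (by omega) hzK (wT a) (adm_wT a)
    have hcnt := count_le ha N z
    have hprod : ∏ p ∈ Ps z, (1 - nu (wT a) p / p) ≤ (C₂ * Real.log 4) ^ 2 / (Real.log z) ^ 2 * R := by
      refine (prod_wT_le ha z).trans ?_
      have h1 := hMP 4 z (by norm_num) (by omega)
      have h2 : (Ioc 4 z).filter Nat.Prime = Ps z := by
        ext p
        rw [Finset.mem_filter, mem_Ioc, mem_Ps]
        constructor
        · rintro ⟨⟨h3, h4⟩, h5⟩; exact ⟨by omega, h4, h5⟩
        · rintro ⟨h3, h4, h5⟩; exact ⟨⟨by omega, h4⟩, h5⟩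
      rw [h2] at h1
      have h3 : 0 ≤ ∏ p ∈ Ps z, (1 - 1 / (p : ℝ)) := by
        refine Finset.prod_nonneg fun p hp => ?_
        have h5 : (5 : ℝ) ≤ p := by exact_mod_cast (mem_Ps.1 hp).1
        have h6 : 1 / (p : ℝ) < 1 := by
          rw [div_lt_one (by linarith)]
          linarith
        linarith
      refine mul_le_mul_of_nonneg_right ?_ (by linarith)
      have h4 := pow_le_pow_left₀ h3 h1 2
      refine h4.trans (le_of_eq ?_)
      push_cast
      rw [← div_pow]
      congr 1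
      ring
    have hexp : Real.exp (-(3 * Sz z)) ≤ C₃ ^ 3 / (Real.log z) ^ 2 := by
      have h1 := hSz z (by omega)
      have h2 : Real.exp (-(3 * Sz z)) = (Real.exp (-Sz z)) ^ 3 := by
        rw [← Real.exp_nat_mul]
        congr 1
        push_cast
        ring
      rw [h2]
      refine (pow_le_pow_left₀ (Real.exp_pos _).le h1 3).trans ?_
      rw [div_pow, div_le_div_iff₀ (by positivity) (by positivity)]
      refine mul_le_mul_of_nonneg_left ?_ (by positivity)
      exact pow_le_pow_right₀ hlz1 (by norm_num)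
    have hzb : (z : ℝ) ≤ 16 * (N / (Real.log N) ^ 2) := by
      have h1 : Real.log N ≤ (N : ℝ) ^ (1 / 4 : ℝ) / (1 / 4) :=
        Real.log_le_rpow_div hN0.le (by norm_num)
      have h2 : (Real.log N) ^ 2 ≤ 16 * √N := by
        have h3 : (Real.log N) ^ 2 ≤ ((N : ℝ) ^ (1 / 4 : ℝ) / (1 / 4)) ^ 2 :=
          pow_le_pow_left₀ hlogN.le h1 2
        have h4 : ((N : ℝ) ^ (1 / 4 : ℝ) / (1 / 4)) ^ 2 = 16 * √N := by
          rw [div_pow, ← Real.rpow_natCast, ← Real.rpow_mul hN0.le, Real.sqrt_eq_rpow]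
          norm_num
          ring
        rwa [h4] at h3
      have h5 : (z : ℝ) ≤ √N := by
        refine Real.le_sqrt_of_sq_le ?_
        exact_mod_cast hz2
      rw [mul_div_assoc', le_div_iff₀ hlogN2]
      calc (z : ℝ) * (Real.log N) ^ 2 ≤ √N * (16 * √N) := by gcongr
        _ = 16 * (√N * √N) := by ring
        _ = 16 * N := by rw [Real.mul_self_sqrt hN0.le]
    have hmain : C₁ * N * (∏ p ∈ Ps z, (1 - nu (wT a) p / p) + Real.exp (-(3 * Sz z))) ≤
        C₁ * A * (2 * k) ^ 2 * (N / (Real.log N) ^ 2) * R := by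
      have h1 : ∏ p ∈ Ps z, (1 - nu (wT a) p / p) + Real.exp (-(3 * Sz z)) ≤
          A * (1 / (Real.log z) ^ 2) * R := by
        have h2 : C₃ ^ 3 / (Real.log z) ^ 2 ≤ C₃ ^ 3 / (Real.log z) ^ 2 * R :=
          le_mul_of_one_le_right (by positivity) hR
        calc _ ≤ (C₂ * Real.log 4) ^ 2 / (Real.log z) ^ 2 * R + C₃ ^ 3 / (Real.log z) ^ 2 * R :=
              add_le_add hprod (hexp.trans h2)
          _ = A * (1 / (Real.log z) ^ 2) * R := by rw [hA]; ring
      calc C₁ * N * (∏ p ∈ Ps z, (1 - nu (wT a) p / p) + Real.exp (-(3 * Sz z)))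
          ≤ C₁ * N * (A * (1 / (Real.log z) ^ 2) * R) := by gcongr
        _ ≤ C₁ * N * (A * ((2 * k) ^ 2 / (Real.log N) ^ 2) * R) := by gcongr
        _ = _ := by ring
    have hzR : (z : ℝ) ≤ 16 * (N / (Real.log N) ^ 2) * R :=
      hzb.trans (le_mul_of_one_le_right (by positivity) hR)
    have hL0R : 0 ≤ L0 ^ 2 * (N / (Real.log N) ^ 2) * R := by positivity
    calc (((Icc 1 N).filter (fun t => t.Prime ∧ (a * t + 1).Prime)).card : ℝ)
        ≤ z + ∑ t ∈ range N, ∏ p ∈ Ps z, (1 - wT a p t) := hcnt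
      _ ≤ 16 * (N / (Real.log N) ^ 2) * R + C₁ * A * (2 * k) ^ 2 * (N / (Real.log N) ^ 2) * R :=
          add_le_add hzR (hgs.trans hmain)
      _ ≤ C * (N / (Real.log N) ^ 2) * R := by
          rw [hC]
          linarith

end Pool.Agent.Helper52.Tot
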