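import Pool.Agent.Helper94.Tot.Goals

/-!
# MP_05f971_nt: counting roots of linear congruences
-/

set_option autoImplicit false

open Finset

namespace Pool.Agent.Helper52.Tot

open Pool.Agent.Helper94.Tot Pool.Agent.Helper90.Twin

theorem card_root' {p : ℕ} (hp : p.Prime) {a : ℕ} (ha : ¬ p ∣ a) (c : ℕ) :
    ((range p).filter (fun x => p ∣ a * x + c)).card = 1 := by
  have : Fact p.Prime := ⟨hp⟩
  have h6 : ((a : ℕ) : ZMod p) ≠ 0 := by
    rw [Ne, ZMod.natCast_eq_zero_iff]
    exact ha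
  rw [Finset.card_eq_one]
  refine ⟨(-(c : ZMod p) * ((a : ℕ) : ZMod p)⁻¹).val, ?_⟩
  ext x
  rw [Finset.mem_filter, mem_range, Finset.mem_singleton]
  constructor
  · rintro ⟨hx, hdvd⟩
    have h1 : ((a * x + c : ℕ) : ZMod p) = 0 := (ZMod.natCast_eq_zero_iff _ _).2 hdvd
    have h2 : (x : ZMod p) = -(c : ZMod p) * ((a : ℕ) : ZMod p)⁻¹ := by
      rw [eq_mul_inv_iff_mul_eq₀ h6]
      push_cast at h1
      linear_combination h1
    rw [← h2, ZMod.val_natCast_of_lt hx]
  · intro hx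
    have hlt : x < p := by
      rw [hx]
      exact ZMod.val_lt _
    refine ⟨hlt, ?_⟩
    rw [← ZMod.natCast_eq_zero_iff]
    have h2 : (x : ZMod p) = -(c : ZMod p) * ((a : ℕ) : ZMod p)⁻¹ := by
      rw [hx, ZMod.natCast_zmod_val]
    push_cast
    rw [h2]
    field_simp
    ring

/-- The number of residues in a union of two disjoint root sets. -/
theorem nu_union {p : ℕ} (P Q : ℕ → Prop) [DecidablePred P] [DecidablePred Q]
    (hdis : ∀ x, ¬ (P x ∧ Q x)) :
    ∑ x ∈ range p, (if P x ∨ Q x then (1 : ℝ) else 0) =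
      ((range p).filter P).card + ((range p).filter Q).card := by
  have h1 : ∀ x, (if P x ∨ Q x then (1 : ℝ) else 0) =
      (if P x then (1 : ℝ) else 0) + (if Q x then (1 : ℝ) else 0) := by
    intro x
    have := hdis x
    by_cases ha : P x <;> by_cases hb : Q x <;> simp [ha, hb]
    exact absurd ⟨ha, hb⟩ this
  simp_rw [h1]
  rw [Finset.sum_add_distrib, Finset.sum_boole, Finset.sum_boole]

theorem dvd_per (p a c x : ℕ) : p ∣ a * (x + p) + c ↔ p ∣ a * x + c := by
  have h1 : a * (x + p) + c = a * x + c + p * a := by ring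
  rw [h1, Nat.dvd_add_left (Dvd.intro a rfl : p ∣ p * a)]

theorem not_dvd_both {p m n : ℕ} (hp : p.Prime) (h : n = m + 1) : ¬ (p ∣ m ∧ p ∣ n) := by
  rintro ⟨h1, h2⟩
  subst h
  have := (Nat.dvd_add_right h1).1 h2
  exact hp.one_lt.ne' (Nat.dvd_one.1 this)

end Pool.Agent.Helper52.Tot
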